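import Pool.Agent.H99.SIF.Un

/-! Nearly regular matrices: the bound of MP_008206 when the number of ones allowed by the
largest degree is only a little above the bound. -/

set_option autoImplicit false

namespace SIFU
open Finset

theorem near_reg {P Q : Type} [Fintype P] [Fintype Q] [DecidableEq P] [DecidableEq Q]
    {A : P → Q → Bool} {k x D w d : ℕ} (cP : Fintype.card P = k + x)
    (cQ : Fintype.card Q = k + x) (hU : U A k)
    (hR : ∀ r, (Nr A r).card ≤ D) (hC : ∀ c, (Nc A c).card ≤ D) (hDw : D + w = x + 1)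
    (hd : (k + x) * D ≤ (x + 1) ^ 2 + (k + x - 1) + 1 + d)
    (hlt : d + d / (w + 3) + w + 1 < k) :
    (E A).card ≤ (x + 1) ^ 2 + (k + x - 1) := by
  by_contra hcon
  rw [not_le] at hcon
  have hsR : ∑ r, (D - (Nr A r).card) ≤ d := by
    have h1 : ∑ r, (D - (Nr A r).card) + ∑ r, (Nr A r).card = (k + x) * D := by
      rw [← sum_add_distrib, ← cP, ← card_univ, ← smul_eq_mul, ← sum_const]
      exact sum_congr rfl (fun r _ => Nat.sub_add_cancel (hR r))
    rw [← card_E_rows] at h1
    omega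
  have hsC : ∑ c, (D - (Nc A c).card) ≤ d := by
    have h1 : ∑ c, (D - (Nc A c).card) + ∑ c, (Nc A c).card = (k + x) * D := by
      rw [← sum_add_distrib, ← cQ, ← card_univ, ← smul_eq_mul, ← sum_const]
      exact sum_congr rfl (fun r _ => Nat.sub_add_cancel (hC r))
    rw [← card_E_cols] at h1
    omega
  have hne : (E A).Nonempty := by
    rw [nonempty_iff_ne_empty]
    intro h
    rw [h, card_empty] at hcon
    omega
  obtain ⟨⟨r0, c0⟩, h0⟩ := hne
  have h0' : A r0 c0 = true := by simpa [E] using h0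
  obtain ⟨R, C, hM, _, _⟩ := hU r0 c0 h0'
  -- the ones of the columns of the copy in the skipped rows
  have hcol : ∀ q ∈ C, ((univ \ R) ∩ Nc A q).card + 1 = (Nc A q).card := by
    intro q hq
    rw [← hM.col q hq, ← card_union_of_disjoint]
    · apply congrArg Finset.card
      ext r
      simp only [mem_union, mem_inter, mem_sdiff, mem_univ, true_and]
      tauto
    · rw [disjoint_left]
      intro r h1 h2
      simp only [mem_inter, mem_sdiff] at h1 h2
      exact h1.1.2 h2.1
  have hcR : (univ \ R).card = x := by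
    rw [card_sdiff_of_subset (subset_univ _), hM.cR, card_univ, cP, Nat.add_sub_cancel_left]
  have hcC : (univ \ C).card = x := by
    rw [card_sdiff_of_subset (subset_univ _), hM.cC, card_univ, cQ, Nat.add_sub_cancel_left]
  have hdc : ∑ l ∈ univ \ R, (C ∩ Nr A l).card = ∑ q ∈ C, ((univ \ R) ∩ Nc A q).card := by
    have e1 : ∀ l, (C ∩ Nr A l).card = ∑ q ∈ C, if A l q = true then 1 else 0 := by
      intro l
      rw [← card_filter]
      apply congrArg Finset.card
      ext q
      simp [Nr]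
    have e2 : ∀ q, ((univ \ R) ∩ Nc A q).card = ∑ l ∈ univ \ R, if A l q = true then 1 else 0 := by
      intro q
      rw [← card_filter]
      apply congrArg Finset.card
      ext l
      simp [Nc]
    rw [sum_congr rfl (fun l _ => e1 l), sum_congr rfl (fun q _ => e2 q), sum_comm]
  have hsum : ∑ q ∈ C, ((univ \ R) ∩ Nc A q).card + k = ∑ q ∈ C, (Nc A q).card := by
    rw [← sum_congr rfl hcol, sum_add_distrib, sum_const, hM.cC, smul_eq_mul, mul_one]
  have hG : ∑ c ∈ univ \ C, (Nc A c).card ≤ x * D := by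
    calc ∑ c ∈ univ \ C, (Nc A c).card ≤ ∑ c ∈ univ \ C, D := sum_le_sum (fun c _ => hC c)
      _ = x * D := by rw [sum_const, smul_eq_mul, hcC]
  have hE : (E A).card = ∑ q ∈ C, (Nc A q).card + ∑ c ∈ univ \ C, (Nc A c).card := by
    rw [card_E_cols, ← sum_sdiff (subset_univ C), add_comm]
  have hbig : x * (w + 2) < ∑ l ∈ univ \ R, (C ∩ Nr A l).card := by
    rw [hdc]
    have h1 : x * D + x * w = x * (x + 1) := by rw [← mul_add, hDw]
    have h2 : x * (w + 2) = x * w + 2 * x := by ring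
    have h3 : (x + 1) ^ 2 = x * (x + 1) + x + 1 := by ring
    rw [h2]
    rw [h3] at hcon
    omega
  obtain ⟨l, hl, hμ⟩ : ∃ l ∈ univ \ R, w + 2 < (C ∩ Nr A l).card := by
    by_contra hno
    push_neg at hno
    have h1 : ∑ l ∈ univ \ R, (C ∩ Nr A l).card ≤ ∑ l ∈ univ \ R, (w + 2) :=
      sum_le_sum (fun l hl => hno l hl)
    rw [sum_const, smul_eq_mul, hcR] at h1
    omega
  have hlR : l ∉ R := (mem_sdiff.1 hl).2
  -- a full column among the columns of `l` in the copy
  obtain ⟨q, hq, hqd⟩ : ∃ q ∈ C ∩ Nr A l, D - (Nc A q).card ≤ d / (w + 3) := by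
    by_contra hno
    push_neg at hno
    have h1 : ∑ q ∈ C ∩ Nr A l, (d / (w + 3) + 1) ≤ ∑ q ∈ C ∩ Nr A l, (D - (Nc A q).card) :=
      sum_le_sum (fun q hq => hno q hq)
    have h2 : ∑ q ∈ C ∩ Nr A l, (D - (Nc A q).card) ≤ ∑ q, (D - (Nc A q).card) :=
      sum_le_sum_of_subset (subset_univ _)
    rw [sum_const, smul_eq_mul] at h1
    have h3 : (w + 3) * (d / (w + 3) + 1) ≤ (C ∩ Nr A l).card * (d / (w + 3) + 1) :=
      Nat.mul_le_mul_right _ (by omega)
    have h4 : d < (w + 3) * (d / (w + 3) + 1) := by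
      have := Nat.lt_mul_div_succ d (show 0 < w + 3 by omega)
      exact this
    omega
  have hqC : q ∈ C := (mem_inter.1 hq).1
  have hlq : A l q = true := mem_Nr.1 (mem_inter.1 hq).2
  obtain ⟨R2, C2, hN, hlR2, hqC2⟩ := hU l q hlq
  -- many common rows
  have hZ : (univ \ Nc A q).card + (Nc A q).card = k + x := by
    rw [card_sdiff_add_card_eq_card (subset_univ _), card_univ, cP]
  have hr1 : (R \ Nc A q).card + 1 = k := by
    rw [← hM.cR, ← hM.col q hqC, card_sdiff_add_card_inter]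
  have hr2 : (R2 \ Nc A q).card + 1 = k := by
    rw [← hN.cR, ← hN.col q hqC2, card_sdiff_add_card_inter]
  have hr3 : ((R \ Nc A q) ∪ (R2 \ Nc A q)).card ≤ (univ \ Nc A q).card := by
    apply card_le_card
    intro r hr
    rw [mem_union, mem_sdiff, mem_sdiff] at hr
    rw [mem_sdiff]
    refine ⟨mem_univ _, ?_⟩
    rcases hr with h | h
    · exact h.2
    · exact h.2
  have hr4 := card_union_add_card_inter (R \ Nc A q) (R2 \ Nc A q)
  have hqD := hC q
  have hmany : d < ((R \ Nc A q) ∩ (R2 \ Nc A q)).card := by omega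
  have hsmall : ∀ r ∈ (R \ Nc A q) ∩ (R2 \ Nc A q), 1 ≤ D - (Nr A r).card := by
    intro r hr
    rw [mem_inter, mem_sdiff, mem_sdiff] at hr
    have h1 := rel_le cQ (A := A) (k := k) (r := l) (r' := r) ⟨R2, C2, hN, hlR2, hr.2.1⟩
    have h2 : ((C ∩ Nr A l) ∪ Nr A r).card ≤ x + 2 :=
      le_trans (card_le_card (union_subset_union inter_subset_right (Subset.refl _))) h1
    have h3 := card_union_add_card_inter (C ∩ Nr A l) (Nr A r)
    have h4 : ((C ∩ Nr A l) ∩ Nr A r).card ≤ 1 := by
      rw [← hM.row r hr.1.1]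
      apply card_le_card
      intro c hc
      rw [mem_inter, mem_inter] at hc
      exact mem_inter.2 ⟨hc.1.1, hc.2⟩
    omega
  have hfin : ((R \ Nc A q) ∩ (R2 \ Nc A q)).card ≤ ∑ r, (D - (Nr A r).card) := by
    calc ((R \ Nc A q) ∩ (R2 \ Nc A q)).card
        = ∑ r ∈ (R \ Nc A q) ∩ (R2 \ Nc A q), 1 := by rw [sum_const, smul_eq_mul, mul_one]
      _ ≤ ∑ r ∈ (R \ Nc A q) ∩ (R2 \ Nc A q), (D - (Nr A r).card) := sum_le_sum hsmall
      _ ≤ ∑ r, (D - (Nr A r).card) := sum_le_sum_of_subset (subset_univ _)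
  omega

end SIFU
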