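import Pool.Agent.H48.SIF.Near
import Pool.Agent.H20.SIF.Full21

/-! Exact ranges of MP_008206_co: `k = 10` added to helper20's `full21`. -/

set_option autoImplicit false

namespace SIFU
open Finset

theorem row10 {P Q : Type} [Fintype P] [Fintype Q] [DecidableEq P] [DecidableEq Q]
    {A : P → Q → Bool} {x D w : ℕ} (cP : Fintype.card P = 10 + x)
    (cQ : Fintype.card Q = 10 + x) (hU : U A 10) (hR : ∀ r, (Nr A r).card ≤ D)
    (hC : ∀ c, (Nc A c).card ≤ D) (hDw : D + w = x + 1) (hD : 1 ≤ D) (p : P)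
    (hp : (Nr A p).card = D) (hx1 : 10 ≤ x) (hx2 : x ≤ 14) :
    (E A).card ≤ (x + 1) ^ 2 + (10 + x - 1) := by
  by_cases h1 : w ≤ 3
  · exact row84 cP cQ hU (by norm_num) hR hC hDw hD p hp (by omega) (Or.inl (by omega))
  by_cases h2 : w = 4 ∧ 12 ≤ x
  · exact row84 cP cQ hU (by norm_num) hR hC hDw hD p hp (by omega) (Or.inl (by omega))
  by_cases h3 : w = 4 ∧ x = 11
  · obtain ⟨hw, hx⟩ := h3
    subst hw
    subst hx
    have hD8 : D = 8 := by omega
    subst hD8
    exact near_reg (d := 3) (w := 4) cP cQ hU hR hC rfl (by norm_num) (by norm_num)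
  · have h4 : (E A).card ≤ (10 + x) * D := by
      rw [card_E_rows, ← cP, ← smul_eq_mul, ← card_univ, ← sum_const]
      exact sum_le_sum (fun r _ => hR r)
    refine h4.trans ?_
    obtain rfl | rfl | rfl | rfl | rfl : x = 10 ∨ x = 11 ∨ x = 12 ∨ x = 13 ∨ x = 14 := by omega
    · have : (10 + 10) * D ≤ (10 + 10) * 7 := Nat.mul_le_mul_left _ (by omega)
      omega
    · have : (10 + 11) * D ≤ (10 + 11) * 7 := Nat.mul_le_mul_left _ (by omega)
      omega
    · have : (10 + 12) * D ≤ (10 + 12) * 8 := Nat.mul_le_mul_left _ (by omega)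
      omega
    · have : (10 + 13) * D ≤ (10 + 13) * 9 := Nat.mul_le_mul_left _ (by omega)
      omega
    · have : (10 + 14) * D ≤ (10 + 14) * 10 := Nat.mul_le_mul_left _ (by omega)
      omega

/-- the bound for `k = 10`, `20 ≤ n ≤ 24` -/
theorem extra10 {P Q : Type} [Fintype P] [Fintype Q] [DecidableEq P] [DecidableEq Q]
    {A : P → Q → Bool} {x : ℕ} (cP : Fintype.card P = 10 + x)
    (cQ : Fintype.card Q = 10 + x) (hU : U A 10) (hx1 : 10 ≤ x) (hx2 : x ≤ 14) :
    (E A).card ≤ (x + 1) ^ 2 + (10 + x - 1) := by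
  rcases (E A).eq_empty_or_nonempty with h | ⟨⟨r0, c0⟩, h0⟩
  · rw [h]; simp
  have h0' : A r0 c0 = true := by simpa [E] using h0
  obtain ⟨p, _, hp⟩ := exists_max_image univ (fun r => (Nr A r).card) ⟨r0, mem_univ r0⟩
  obtain ⟨v, _, hv⟩ := exists_max_image univ (fun c => (Nc A c).card) ⟨c0, mem_univ c0⟩
  have h1 : 1 ≤ (Nr A p).card :=
    le_trans (card_pos.2 ⟨c0, mem_Nr.2 h0'⟩) (hp r0 (mem_univ _))
  have h2 : 1 ≤ (Nc A v).card :=
    le_trans (card_pos.2 ⟨r0, mem_Nc.2 h0'⟩) (hv c0 (mem_univ _))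
  rcases le_total (Nc A v).card (Nr A p).card with h3 | h3
  · have hDx : (Nr A p).card ≤ x + 1 := deg_le cQ hU p
    obtain ⟨w, hw⟩ : ∃ w, (Nr A p).card + w = x + 1 := ⟨x + 1 - (Nr A p).card, by omega⟩
    exact row10 cP cQ hU (fun r => hp r (mem_univ _))
      (fun c => (hv c (mem_univ _)).trans h3) hw h1 p rfl hx1 hx2
  · have hswapE : (E (fun c r => A r c)).card = (E A).card := by
      rw [card_E_rows (fun c r => A r c), card_E_cols A]
      rfl
    have hDx : (Nc A v).card ≤ x + 1 := deg_le (A := fun c r => A r c) cP (U_swap hU) v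
    obtain ⟨w, hw⟩ : ∃ w, (Nc A v).card + w = x + 1 := ⟨x + 1 - (Nc A v).card, by omega⟩
    have h4 := row10 (A := fun c r => A r c) (D := (Nc A v).card) cQ cP (U_swap hU)
      (fun c => hv c (mem_univ _)) (fun r => (hp r (mem_univ _)).trans h3) hw h2 v rfl hx1 hx2
    rw [hswapE] at h4
    exact h4

/-- **Exact ranges**: `full21` with `k = 10` added (all `x ≥ 6`). -/
theorem full10 {P Q : Type} [Fintype P] [Fintype Q] [DecidableEq P] [DecidableEq Q]
    {A : P → Q → Bool} {k x : ℕ} (cP : Fintype.card P = k + x)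
    (cQ : Fintype.card Q = k + x) (hU : U A k) (hk : 2 ≤ k)
    (hc : (k ≤ x + 8 ∧ k ^ 2 + 2 * k * x ≤ x ^ 2 + 9 * x + 5 * k) ∨
      (k ≤ 10 ∧ 6 ≤ x) ∨ x = 6 ∨ x = 7 ∨ x = 8 ∨ x = 9) :
    (E A).card ≤ (x + 1) ^ 2 + (k + x - 1) := by
  rcases hc with h | ⟨h1, h2⟩ | h
  · exact full21 cP cQ hU hk (Or.inl h)
  · rcases Nat.lt_or_ge k 10 with h3 | h3
    · exact full21 cP cQ hU hk (Or.inr (Or.inl ⟨by omega, h2⟩))
    · obtain rfl : k = 10 := by omega
      rcases Nat.lt_or_ge x 10 with h4 | h4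
      · exact full21 cP cQ hU hk (Or.inr (Or.inr (by omega)))
      · rcases Nat.lt_or_ge 14 x with h5 | h5
        · refine full21 cP cQ hU hk (Or.inl ⟨by omega, ?_⟩)
          nlinarith
        · exact extra10 cP cQ hU h4 h5
  · exact full21 cP cQ hU hk (Or.inr (Or.inr h))

end SIFU
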