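import Pool.Agent.H48.SIF.Near
import Pool.Agent.H84.SIF.Extra

/-! MP_008206_co: the cases `k = 11`, `x = 14, 15, 16`. -/

set_option autoImplicit false

namespace SIFU
open Finset

theorem row11a {P Q : Type} [Fintype P] [Fintype Q] [DecidableEq P] [DecidableEq Q]
    {A : P → Q → Bool} (cP : Fintype.card P = 11 + 16)
    (cQ : Fintype.card Q = 11 + 16) (hU : U A 11) (hR : ∀ r, (Nr A r).card ≤ 12)
    (hC : ∀ c, (Nc A c).card ≤ 12) (p : P) (hp : (Nr A p).card = 12) :
    (E A).card ≤ (16 + 1) ^ 2 + (11 + 16 - 1) := by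
  obtain ⟨κ, d, l, f, ι, q, Y, e1, e2, e3, e4, e5, e6, e7, e8, e9⟩ :=
    frame52 (w := 5) cP cQ hU hR hC rfl (by norm_num) p hp
  by_contra hcon
  rw [not_le] at hcon
  have c1 : (E A).card ≥ 316 := by
    have : (16 + 1) ^ 2 + (11 + 16 - 1) = 315 := by norm_num
    omega
  have n1 : (16 + 1) ^ 2 + (11 + 16 - 1) = 315 := by norm_num
  rw [n1] at e8 e9
  clear hcon n1
  rcases Nat.lt_or_ge l (κ + d) with hl | hl
  · have hd : d ≤ 5 := by omega
    have hκ : κ ≤ 5 := by omega
    have hl4 : l ≤ 4 := by omega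
    interval_cases d <;> interval_cases κ <;> (try omega) <;> interval_cases l <;> omega
  · have h5 : (5 : ℤ) + d * 5 + q ≤ (-1) + κ + 5 * l + Y := by
      zify at e8 c1
      linarith
    have h0 := small_big 5 d κ l f Y q 12 (-1) (Int.natCast_nonneg d) (Int.natCast_nonneg κ)
      (by exact_mod_cast e1) (by norm_num) (by omega) (by exact_mod_cast hl)
      (by exact_mod_cast e5) (by exact_mod_cast e6) h5
    omega

theorem row11 {P Q : Type} [Fintype P] [Fintype Q] [DecidableEq P] [DecidableEq Q]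
    {A : P → Q → Bool} {x D w : ℕ} (cP : Fintype.card P = 11 + x)
    (cQ : Fintype.card Q = 11 + x) (hU : U A 11) (hR : ∀ r, (Nr A r).card ≤ D)
    (hC : ∀ c, (Nc A c).card ≤ D) (hDw : D + w = x + 1) (hD : 1 ≤ D) (p : P)
    (hp : (Nr A p).card = D) (hx1 : 14 ≤ x) (hx2 : x ≤ 16) :
    (E A).card ≤ (x + 1) ^ 2 + (11 + x - 1) := by
  by_cases h1 : w ≤ 4
  · exact row84 cP cQ hU (by norm_num) hR hC hDw hD p hp (by omega) (Or.inl (by omega))
  by_cases h2 : w = 5
  · subst h2
    obtain rfl | rfl | rfl : x = 14 ∨ x = 15 ∨ x = 16 := by omega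
    · have hD8 : D = 10 := by omega
      subst hD8
      exact near_reg (d := 0) (w := 5) cP cQ hU hR hC rfl (by norm_num) (by norm_num)
    · have hD8 : D = 11 := by omega
      subst hD8
      exact near_reg (d := 4) (w := 5) cP cQ hU hR hC rfl (by norm_num) (by norm_num)
    · have hD8 : D = 12 := by omega
      subst hD8
      exact row11a cP cQ hU hR hC p hp
  · have h4 : (E A).card ≤ (11 + x) * D := by
      rw [card_E_rows, ← cP, ← smul_eq_mul, ← card_univ, ← sum_const]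
      exact sum_le_sum (fun r _ => hR r)
    refine h4.trans ?_
    obtain rfl | rfl | rfl : x = 14 ∨ x = 15 ∨ x = 16 := by omega
    · have : (11 + 14) * D ≤ (11 + 14) * 9 := Nat.mul_le_mul_left _ (by omega)
      omega
    · have : (11 + 15) * D ≤ (11 + 15) * 10 := Nat.mul_le_mul_left _ (by omega)
      omega
    · have : (11 + 16) * D ≤ (11 + 16) * 11 := Nat.mul_le_mul_left _ (by omega)
      omega

/-- the bound for `k = 11`, `25 ≤ n ≤ 27` -/
theorem extra11 {P Q : Type} [Fintype P] [Fintype Q] [DecidableEq P] [DecidableEq Q]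
    {A : P → Q → Bool} {x : ℕ} (cP : Fintype.card P = 11 + x)
    (cQ : Fintype.card Q = 11 + x) (hU : U A 11) (hx1 : 14 ≤ x) (hx2 : x ≤ 16) :
    (E A).card ≤ (x + 1) ^ 2 + (11 + x - 1) := by
  rcases (E A).eq_empty_or_nonempty with h | ⟨⟨r0, c0⟩, h0⟩
  · rw [h]; simp
  have h0' : A r0 c0 = true := by simpa [E] using h0
  obtain ⟨p, _, hp⟩ := exists_max_image univ (fun r => (Nr A r).card) ⟨r0, mem_univ r0⟩
  obtain ⟨v, _, hv⟩ := exists_max_image univ (fun c => (Nc A c).card) ⟨c0, mem_univ c0⟩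
  have h1 : 1 ≤ (Nr A p).card :=
    le_trans (card_pos.2 ⟨c0, mem_Nr.2 h0'⟩) (hp r0 (mem_univ _))
  have h2 : 1 ≤ (Nc A v).card :=
    le_trans (card_pos.2 ⟨r0, mem_Nc.2 h0'⟩) (hv c0 (mem_univ _))
  rcases le_total (Nc A v).card (Nr A p).card with h3 | h3
  · have hDx : (Nr A p).card ≤ x + 1 := deg_le cQ hU p
    obtain ⟨w, hw⟩ : ∃ w, (Nr A p).card + w = x + 1 := ⟨x + 1 - (Nr A p).card, by omega⟩
    exact row11 cP cQ hU (fun r => hp r (mem_univ _))
      (fun c => (hv c (mem_univ _)).trans h3) hw h1 p rfl hx1 hx2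
  · have hswapE : (E (fun c r => A r c)).card = (E A).card := by
      rw [card_E_rows (fun c r => A r c), card_E_cols A]
      rfl
    have hDx : (Nc A v).card ≤ x + 1 := deg_le (A := fun c r => A r c) cP (U_swap hU) v
    obtain ⟨w, hw⟩ : ∃ w, (Nc A v).card + w = x + 1 := ⟨x + 1 - (Nc A v).card, by omega⟩
    have h4 := row11 (A := fun c r => A r c) (D := (Nc A v).card) cQ cP (U_swap hU)
      (fun c => hv c (mem_univ _)) (fun r => (hp r (mem_univ _)).trans h3) hw h2 v rfl hx1 hx2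
    rw [hswapE] at h4
    exact h4

end SIFU
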